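import Mathlib
import Pool.Agent.Helper17.SympBase

open scoped ContDiff Distributions Topology
open Set Function TopologicalSpace

namespace Pool.Agent.Helper42

open Pool.Agent.Helper17

/-- The Hamiltonian vector field `∑ (∂f/∂x_j ∂/∂y_j - ∂f/∂y_j ∂/∂x_j)` of a function `f` on
`ℝ^{2N}`, whose coordinates are `x_j = p (Sum.inl j)` and `y_j = p (Sum.inr j)`. -/
noncomputable def hamField {N : ℕ} (f : Phase N → ℝ) (p : Phase N) : Phase N :=
  WithLp.toLp 2 (Sum.elim (fun j => -fderiv ℝ f p (EuclideanSpace.single (Sum.inr j) 1))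
    (fun j => fderiv ℝ f p (EuclideanSpace.single (Sum.inl j) 1)))

/-- `c` is a complete orbit of the Hamiltonian vector field of `f`. -/
def IsHamOrbit {N : ℕ} (f : Phase N → ℝ) (c : ℝ → Phase N) : Prop :=
  ∀ s, HasDerivAt c (hamField f (c s)) s

/-- The first position coordinate `x_0` of `ℝ^{2n+2}`. -/
def stdX {n : ℕ} (p : Phase (n + 1)) : ℝ := p (Sum.inl 0)

lemma contDiff_stdX {n : ℕ} : ContDiff ℝ ∞ (stdX : Phase (n + 1) → ℝ) :=
  ContinuousLinearMap.contDiff (𝕜 := ℝ)
    (EuclideanSpace.proj (Sum.inl (0 : Fin (n + 1))) : Phase (n + 1) →L[ℝ] ℝ)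

/-- The space of non-trapping Hamiltonians: smooth functions on `ℝ^{2n+2}`, equal to `x_0` outside
a compact set, all of whose complete Hamiltonian orbits are unbounded. -/
def NonTrap (n : ℕ) : Type :=
  {f : Phase (n + 1) → ℝ // ContDiff ℝ ∞ f ∧
    (∃ K : Set (Phase (n + 1)), IsCompact K ∧ ∀ p ∉ K, f p = stdX p) ∧
    ∀ c : ℝ → Phase (n + 1), IsHamOrbit f c → ¬ Bornology.IsBounded (range c)}

/-- The non-trapping Hamiltonians which are equal to `x_0` outside the compact set `K`. -/
def NTSupp (n : ℕ) (K : Compacts (Phase (n + 1))) : Type :=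
  {f : NonTrap n // ∀ p ∉ K, f.1 p = stdX p}

/-- The inclusion. -/
def NTSupp.incl {n : ℕ} (K : Compacts (Phase (n + 1))) : NTSupp n K → NonTrap n := Subtype.val

/-- The difference to `x_0`, as an element of the Fréchet space of smooth functions supported
in `K`. -/
noncomputable def NTSupp.disp {n : ℕ} (K : Compacts (Phase (n + 1))) (f : NTSupp n K) :
    𝓓_{K}(Phase (n + 1), ℝ) where
  toFun p := f.1.1 p - stdX p
  contDiff' := f.1.2.1.sub contDiff_stdX
  zero_on_compl' := fun p hp => by
    have := f.2 p hp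
    simp [this]

/-- The `C^∞` topology on the non-trapping Hamiltonians equal to `x_0` outside `K`: uniform
convergence of all derivatives. -/
noncomputable instance (n : ℕ) (K : Compacts (Phase (n + 1))) : TopologicalSpace (NTSupp n K) :=
  TopologicalSpace.induced (NTSupp.disp K) inferInstance

/-- The direct limit topology on the space of non-trapping Hamiltonians. -/
noncomputable instance (n : ℕ) : TopologicalSpace (NonTrap n) :=
  ⨆ K : Compacts (Phase (n + 1)), TopologicalSpace.coinduced (NTSupp.incl K) inferInstance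

lemma fderiv_stdX {n : ℕ} (p : Phase (n + 1)) :
    fderiv ℝ (stdX : Phase (n + 1) → ℝ) p = EuclideanSpace.proj (Sum.inl 0) :=
  (ContinuousLinearMap.hasFDerivAt
    (EuclideanSpace.proj (Sum.inl 0) : Phase (n + 1) →L[ℝ] ℝ)).fderiv

/-- The orbits of `x_0` are unbounded. -/
lemma unbounded_stdX {n : ℕ} (c : ℝ → Phase (n + 1)) (hc : IsHamOrbit stdX c) :
    ¬ Bornology.IsBounded (range c) := by
  have hy : ∀ s, HasDerivAt (fun s => (c s) (Sum.inr 0)) 1 s := by
    intro s
    have h1 := ((EuclideanSpace.proj (Sum.inr 0) : Phase (n + 1) →L[ℝ] ℝ).hasFDerivAt).comp_hasDerivAt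
      s (hc s)
    refine h1.congr_deriv ?_
    change (hamField stdX (c s)) (Sum.inr 0) = 1
    simp [hamField, fderiv_stdX]
  have hlin : ∀ s, (c s) (Sum.inr 0) = (c 0) (Sum.inr 0) + s := by
    intro s
    have h1 : ∀ s, HasDerivAt (fun s => (c s) (Sum.inr 0) - s) (1 - 1) s := fun s =>
      (hy s).sub (hasDerivAt_id s)
    have h2 := is_const_of_deriv_eq_zero (f := fun s => (c s) (Sum.inr 0) - s)
      (fun s => (h1 s).differentiableAt) (fun s => by rw [(h1 s).deriv, sub_self]) s 0
    simp only [sub_zero] at h2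
    linarith
  intro hb
  obtain ⟨R, hR⟩ := hb.subset_closedBall (0 : Phase (n + 1))
  have h1 : ∀ s, |(c s) (Sum.inr 0)| ≤ R := by
    intro s
    have h2 : ‖c s‖ ≤ R := by simpa using hR (mem_range_self s)
    exact (PiLp.norm_apply_le (c s) (Sum.inr 0)).trans h2
  have h2 := h1 (R - (c 0) (Sum.inr 0) + 1)
  rw [hlin] at h2
  have h3 := le_abs_self ((c 0) (Sum.inr 0) + (R - (c 0) (Sum.inr 0) + 1))
  linarith

/-- The function `x_0`, as a point of the space of non-trapping Hamiltonians. -/
def NonTrap.std {n : ℕ} : NonTrap n :=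
  ⟨stdX, contDiff_stdX, ⟨∅, isCompact_empty, fun _ _ => rfl⟩, unbounded_stdX⟩

/-- The coordinates of a point of `ℝ^{2n+2}` other than `x_0` and `y_0`. -/
noncomputable def restPt {n : ℕ} (p : Phase (n + 1)) : Phase n :=
  WithLp.toLp 2 (fun i => p (Sum.map Fin.succ Fin.succ i))

/-- The homotopy group `π_k(Symp_ct(ℝ^{2n}), id)`; for `k = 0` the set of path components. -/
abbrev PiG (k n : ℕ) : Type := HomotopyGroup (Fin k) (SympCt n) 1

/-- The homotopy group `π_k` of the space of non-trapping Hamiltonians on `ℝ^{2n+2}`, with base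
point `x_0`; for `k = 0` the set of path components. -/
abbrev PiA (k n : ℕ) : Type := HomotopyGroup (Fin k) (NonTrap n) NonTrap.std

/-- The continuous maps of the cube `[0,1]^k` to `Symp_ct(ℝ^{2n})` which are equal to the identity
on the boundary. -/
def LoopG (k n : ℕ) : Type := GenLoop (Fin k) (SympCt n) 1

/-- The continuous maps of the cube `[0,1]^k` to the space of non-trapping Hamiltonians on
`ℝ^{2n+2}` which are equal to `x_0` on the boundary. -/
def LoopA (k n : ℕ) : Type := GenLoop (Fin k) (NonTrap n) NonTrap.std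

/-- The symplectomorphism with parameter `t`. -/
noncomputable def LoopG.at {k n : ℕ} (φ : LoopG k n) (t : Fin k → unitInterval) : Phase n → Phase n :=
  ((φ.1 t : SympCt n) : Equiv.Perm (Phase n))

/-- The Hamiltonian with parameter `t`. -/
noncomputable def LoopA.at {k n : ℕ} (f : LoopA k n) (t : Fin k → unitInterval) : Phase (n + 1) → ℝ :=
  (f.1 t).1

/-- The class in the homotopy group. -/
noncomputable def LoopG.cls {k n : ℕ} (φ : LoopG k n) : PiG k n := Quotient.mk _ φ

/-- The class in the homotopy group. -/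
noncomputable def LoopA.cls {k n : ℕ} (f : LoopA k n) : PiA k n := Quotient.mk _ f

/-- The trivial class. -/
noncomputable def PiG.triv (k n : ℕ) : PiG k n := Quotient.mk _ GenLoop.const

/-- The trivial class. -/
noncomputable def PiA.triv (k n : ℕ) : PiA k n := Quotient.mk _ GenLoop.const

/-- `f` is a homomorphism of homotopy groups. -/
def IsHom {N M X Y : Type} [TopologicalSpace X] [TopologicalSpace Y] [DecidableEq N]
    [DecidableEq M] [Nonempty N] [Nonempty M] {x : X} {y : Y}
    (f : HomotopyGroup N X x → HomotopyGroup M Y y) : Prop := ∀ a b, f (a * b) = f a * f b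

/-- The family `f` of Hamiltonians is the family of the first coordinates `x_0 ∘ φ`. -/
def IsCoord {k n : ℕ} (φ : LoopG k (n + 1)) (f : LoopA k n) : Prop :=
  ∀ t p, f.at t p = stdX (φ.at t p)

/-- `e` is the scattering of the family `f` of Hamiltonians on `ℝ^{2n+2}`, which are equal to
`x_0` outside the ball of radius `ρ`: an orbit of `f t` which enters at `y_0 ≤ -ρ` on the level
`x_0 = ρ (2 τ - 1)` and leaves at `y_0 ≥ ρ` with the remaining coordinates `w` has entered with the
remaining coordinates `e (t, τ) w`. -/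
def IsScattering {k n : ℕ} (f : LoopA k n) (e : LoopG (k + 1) n) : Prop :=
  ∃ ρ : ℝ, 0 < ρ ∧ (∀ t p, ρ ≤ ‖p‖ → f.at t p = stdX p) ∧
    ∀ t (c : ℝ → Phase (n + 1)), IsHamOrbit (f.at t) c → ∀ (a b : ℝ) (τ : unitInterval),
      (c a) (Sum.inr 0) ≤ -ρ → ρ ≤ (c b) (Sum.inr 0) → stdX (c a) = ρ * (2 * (τ : ℝ) - 1) →
      restPt (c a) = e.at (Fin.snoc t τ) (restPt (c b))

/-- `φ` is a suspension of `g`: `∂(x_0 ∘ φ t)/∂x_0 > 0`, `φ t` is the identity unless
`|x_0|, |y_0| < R`, and if `p` has `y_0 = R (2 b - 1)` and `φ t p` has `x_0 = R (2 a - 1)` then the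
remaining coordinates of `φ t p` are the image under `g (t, b, a)` of those of `p`. -/
def IsSuspension {k n : ℕ} (g : LoopG (k + 2) n) (φ : LoopG k (n + 1)) : Prop :=
  (∀ t p, 0 < fderiv ℝ (fun q => stdX (φ.at t q)) p (EuclideanSpace.single (Sum.inl 0) 1)) ∧
    ∃ R : ℝ, 0 < R ∧
    (∀ t (p : Phase (n + 1)), (R ≤ |stdX p| ∨ R ≤ |p (Sum.inr 0)|) → φ.at t p = p) ∧
    ∀ t (a b : unitInterval) (p : Phase (n + 1)), stdX (φ.at t p) = R * (2 * (a : ℝ) - 1) →
      p (Sum.inr 0) = R * (2 * (b : ℝ) - 1) →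
      restPt (φ.at t p) = g.at (Fin.snoc (Fin.snoc t b) a) (restPt p)

end Pool.Agent.Helper42
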