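import Mathlib
import Pool.Agent.H50.Susp.GFlow
import Pool.Agent.Helper42.Susp.Mixed

set_option maxSynthPendingDepth 3

open scoped ContDiff Topology NNReal
open Set Function Filter MeasureTheory

namespace Pool.Agent.Helper42

open Pool.Agent.Helper17 Pool.Agent.H50.Susp

variable {T : Type} [TopologicalSpace T] [CompactSpace T]
  {E : Type} [NormedAddCommGroup E] [NormedSpace ℝ E] [FiniteDimensional ℝ E]

section Flow

variable {X : T → E → E} {θ : T → ℝ → E → E} {R : ℝ} {v : E} {L : E →L[ℝ] ℝ}

/-- Outside the ball the orbits are straight lines. -/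
lemma flow_straight (hder : ∀ t x τ, HasDerivAt (fun τ => θ t τ x) (X t (θ t τ x)) τ)
    (hstd : ∀ t p, R < ‖p‖ → X t p = v) {t : T} {p : E} {a b : ℝ} (hab : a ≤ b)
    (h : ∀ u ∈ Icc a b, R < ‖θ t u p‖) : θ t b p = θ t a p + (b - a) • v := by
  have hd : ∀ u ∈ Icc a b, HasDerivWithinAt (fun u => θ t u p - u • v) 0 (Icc a b) u := by
    intro u hu
    have h1 := (hder t p u).sub ((hasDerivAt_id u).smul_const v)
    rw [hstd t _ (h u hu), one_smul, sub_self] at h1
    exact h1.hasDerivWithinAt
  have h2 := (convex_Icc a b).norm_image_sub_le_of_norm_hasDerivWithin_le (C := 0) hd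
    (fun u _ => by simp) (left_mem_Icc.2 hab) (right_mem_Icc.2 hab)
  rw [zero_mul, norm_le_zero_iff, sub_eq_zero] at h2
  have h3 : θ t b p = (θ t b p - b • v) + b • v := by abel
  rw [h3, h2, sub_smul]
  abel

/-- Lines avoiding the ball are orbits. -/
lemma flow_of_line (h0 : ∀ t x, θ t 0 x = x)
    (hder : ∀ t x τ, HasDerivAt (fun τ => θ t τ x) (X t (θ t τ x)) τ) {K : ℝ≥0}
    (hK : ∀ t, LipschitzWith K (X t))
    (hstd : ∀ t p, R < ‖p‖ → X t p = v) {t : T} {p : E} {s : ℝ} (hs : 0 ≤ s)
    (h : ∀ u ∈ Icc 0 s, R < ‖p + u • v‖) : θ t s p = p + s • v := by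
  have h1 := ode_unique (hK t) (r := fun u => θ t u p) (r' := fun u => p + u • v) (a := 0) (b := s)
    (fun u _ => hder t p u) (fun u hu => by
      have h2 : HasDerivAt (fun u : ℝ => p + u • v) ((1 : ℝ) • v) u :=
        ((hasDerivAt_id u).smul_const v).const_add p
      beta_reduce
      rw [hstd t _ (h u hu)]
      rwa [one_smul] at h2) (by simp [h0])
  exact h1 (right_mem_Icc.2 hs)

/-- Above the ball the orbits are straight half lines. -/
lemma flow_above (h0 : ∀ t x, θ t 0 x = x)
    (hder : ∀ t x τ, HasDerivAt (fun τ => θ t τ x) (X t (θ t τ x)) τ) {K : ℝ≥0}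
    (hK : ∀ t, LipschitzWith K (X t)) (hstd : ∀ t p, R < ‖p‖ → X t p = v)
    (hL : ∀ p, |L p| ≤ ‖p‖) (hLv : L v = 1) {t : T} {p : E} (hp : R < L p) {s : ℝ} (hs : 0 ≤ s) :
    θ t s p = p + s • v := by
  apply flow_of_line h0 hder hK hstd hs
  intro u hu
  have h1 : L (p + u • v) = L p + u := by rw [map_add, map_smul, hLv, smul_eq_mul, mul_one]
  have h2 := (le_abs_self _).trans (hL (p + u • v))
  rw [h1] at h2
  linarith [hu.1]

end Flow

/-- A non-trapping vector field, constant outside a ball, has a Lyapunov function, equal to a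
linear function outside a ball. -/
theorem exists_lyapunov {X : T → E → E} (hX : CF X) {R : ℝ} (hR : 0 ≤ R) {v : E} (hv : ‖v‖ = 1)
    {L : E →L[ℝ] ℝ} (hL : ∀ p, |L p| ≤ ‖p‖) (hLv : L v = 1) (hstd : ∀ t p, R < ‖p‖ → X t p = v)
    (hnt : ∀ t (c : ℝ → E), (∀ s, HasDerivAt c (X t (c s)) s) →
      ¬ Bornology.IsBounded (range c)) :
    ∃ (R' : ℝ) (g : T → E → ℝ), 0 ≤ R' ∧ CF g ∧ (∀ t p, R' < ‖p‖ → g t p = L p) ∧
      ∀ t p, 0 < fderiv ℝ (g t) p (X t p) := by
  -- bounds
  have hKc : IsCompact (Metric.closedBall (0 : E) R) := isCompact_closedBall _ _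
  have hout : ∀ t, ∀ p ∉ Metric.closedBall (0 : E) R, X t p - v = 0 := by
    intro t p hp
    rw [mem_closedBall_zero_iff, not_le] at hp
    rw [hstd t p hp, sub_self]
  obtain ⟨M, hM0, hM⟩ := exists_bound_fderiv (F := fun t p => X t p - v)
    (hX.sub (CF.const contDiff_const)) hKc hout
  have hM' : ∀ t p, ‖fderiv ℝ (X t) p‖ ≤ M := by
    intro t p
    have h1 : HasFDerivAt (fun p => X t p - v) (fderiv ℝ (X t) p) p :=
      (hX.differentiable t p).hasFDerivAt.sub_const v
    rw [← h1.fderiv]
    exact hM t p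
  have hLip : ∀ t, LipschitzWith (Real.toNNReal M) (X t) := by
    intro t
    apply LipschitzWith.of_dist_le_mul
    intro x y
    rw [dist_eq_norm, dist_eq_norm, Real.coe_toNNReal _ hM0]
    exact convex_univ.norm_image_sub_le_of_norm_fderiv_le (𝕜 := ℝ)
      (fun z _ => hX.differentiable t z) (fun z _ => hM' t z) (mem_univ y) (mem_univ x)
  obtain ⟨C₀, hC₀⟩ := (isCompact_univ.prod hKc).exists_bound_of_continuousOn
    (f := fun q : T × E => X q.1 q.2) hX.continuous.continuousOn
  set C : ℝ := max C₀ 1 with hC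
  have hCX : ∀ t p, ‖X t p‖ ≤ C := by
    intro t p
    by_cases hp : p ∈ Metric.closedBall (0 : E) R
    · exact (hC₀ (t, p) ⟨mem_univ _, hp⟩).trans (le_max_left _ _)
    · rw [mem_closedBall_zero_iff, not_le] at hp
      rw [hstd t p hp, hv]
      exact le_max_right _ _
  obtain ⟨θ, h0, hder, hadd, hCF, -⟩ := exists_global_flow X hX hM'
  have hcs : ∀ (s : ℝ), Continuous (fun q : T × E => θ q.1 s q.2) := by
    intro s
    have h1 := (hCF |s|).continuous
    exact h1.comp (g := fun q : (T × Icc (-|s|) |s|) × E => θ q.1.1 q.1.2 q.2)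
      (f := fun q : T × E => ((q.1, ⟨s, neg_abs_le s, le_abs_self s⟩), q.2))
      ((continuous_fst.prodMk continuous_const).prodMk continuous_snd)
  have hθc : ∀ t p, Continuous (fun s => θ t s p) := fun t p =>
    continuous_iff_continuousAt.2 fun s => (hder t p s).continuousAt
  have habove : ∀ t p, R < L p → ∀ s, 0 ≤ s → θ t s p = p + s • v := fun t p hp s hs =>
    flow_above h0 hder hLip hstd hL hLv hp hs
  have hLadd : ∀ p (u : ℝ), L (p + u • v) = L p + u := by
    intro p u
    rw [map_add, map_smul, hLv, smul_eq_mul, mul_one]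
  have hlater : ∀ t p a b, R < L (θ t a p) → a ≤ b → L (θ t b p) = L (θ t a p) + (b - a) := by
    intro t p a b ha hab
    have h1 : θ t b p = θ t (b - a) (θ t a p) := by rw [← hadd, sub_add_cancel]
    rw [h1, habove t _ ha _ (sub_nonneg.2 hab), hLadd]
  set R₁ : ℝ := R + 1 with hR₁
  -- pointwise escape
  have hesc : ∀ t p, ‖p‖ ≤ R₁ → ∃ N : ℕ, R < L (θ t N p) := by
    intro t p hp
    by_contra hcon
    push Not at hcon
    have hle : ∀ s, 0 ≤ s → L (θ t s p) ≤ R := by
      intro s hs
      by_contra h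
      rw [not_le] at h
      obtain ⟨N, hN⟩ := exists_nat_ge s
      have h1 := hlater t p s N h hN
      linarith [hcon N]
    set B : ℝ := R₁ + (R + R₁) with hB
    have hbd : ∀ s, 0 ≤ s → ‖θ t s p‖ ≤ B := by
      intro s hs
      by_cases hsR : ‖θ t s p‖ ≤ R₁
      · linarith
      rw [not_le] at hsR
      set A : Set ℝ := Icc 0 s ∩ {u | ‖θ t u p‖ ≤ R₁} with hA
      have hAc : IsCompact A := isCompact_Icc.inter_right
        (isClosed_le (hθc t p).norm continuous_const)
      have hAne : A.Nonempty := ⟨0, left_mem_Icc.2 hs, by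
        change ‖θ t 0 p‖ ≤ R₁
        rwa [h0]⟩
      have hs' := hAc.sSup_mem hAne
      set s' := sSup A with hs'd
      have hlt : s' < s := by
        rcases hs'.1.2.lt_or_eq with h | h
        · exact h
        · have h1 : ‖θ t s' p‖ ≤ R₁ := hs'.2
          rw [h] at h1
          linarith
      have hafter : ∀ u, s' < u → u ≤ s → R₁ < ‖θ t u p‖ := by
        intro u hu hus
        by_contra h
        have h1 : u ∈ A := ⟨⟨hs'.1.1.trans hu.le, hus⟩, not_lt.1 h⟩
        exact absurd (le_csSup hAc.bddAbove h1) (not_le.2 hu)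
      have hat : R₁ ≤ ‖θ t s' p‖ := by
        have h1 : Tendsto (fun u => ‖θ t u p‖) (𝓝[>] s') (𝓝 ‖θ t s' p‖) :=
          ((hθc t p).norm.tendsto s').mono_left nhdsWithin_le_nhds
        refine ge_of_tendsto h1 ?_
        filter_upwards [Ioc_mem_nhdsGT hlt] with u hu
        exact (hafter u hu.1 hu.2).le
      have hst := flow_straight hder hstd hlt.le (fun u hu => by
        rcases hu.1.lt_or_eq with h | h
        · linarith [hafter u h hu.2]
        · rw [← h]
          linarith)
      have h1 := hle s hs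
      rw [hst, hLadd] at h1
      have h2 : ‖θ t s' p‖ ≤ R₁ := hs'.2
      have h3 := (abs_le.1 ((hL (θ t s' p)).trans h2)).1
      rw [hst]
      calc ‖θ t s' p + (s - s') • v‖ ≤ ‖θ t s' p‖ + ‖(s - s') • v‖ := norm_add_le _ _
        _ = ‖θ t s' p‖ + (s - s') := by
            rw [norm_smul, hv, mul_one, Real.norm_eq_abs, abs_of_nonneg (by linarith)]
        _ ≤ B := by linarith
    obtain ⟨q, -, φ, hφ, hq⟩ := (isCompact_closedBall (0 : E) B).tendsto_subseq
      (x := fun N : ℕ => θ t N p) (fun N => by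
        rw [mem_closedBall_zero_iff]
        exact hbd N N.cast_nonneg)
    apply hnt t (fun s => θ t s q) (fun s => hder t q s)
    rw [isBounded_iff_forall_norm_le]
    refine ⟨B, ?_⟩
    rintro _ ⟨s, rfl⟩
    have hcont : Continuous (fun x => θ t s x) := (hcs s).comp (Continuous.prodMk_right t)
    have h1 : Tendsto (fun k => ‖θ t s (θ t (φ k : ℕ) p)‖) atTop (𝓝 ‖θ t s q‖) :=
      ((hcont.tendsto q).comp hq).norm
    refine le_of_tendsto h1 ?_
    obtain ⟨N, hN⟩ := exists_nat_ge (-s)
    filter_upwards [eventually_ge_atTop N] with k hk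
    rw [← hadd]
    apply hbd
    have h2 : (N : ℝ) ≤ φ k := by exact_mod_cast hk.trans (hφ.id_le k)
    linarith
  -- uniform escape
  obtain ⟨N₀, hN₀⟩ := (isCompact_univ.prod (isCompact_closedBall (0 : E) R₁)).elim_directed_cover
    (fun N : ℕ => {q : T × E | R < L (θ q.1 N q.2)})
    (fun N => isOpen_lt continuous_const (L.continuous.comp (hcs N)))
    (by
      rintro ⟨t, p⟩ ⟨-, hp⟩
      rw [mem_closedBall_zero_iff] at hp
      obtain ⟨N, hN⟩ := hesc t p hp
      exact mem_iUnion.2 ⟨N, hN⟩)
    (by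
      intro N N'
      refine ⟨max N N', fun q hq => ?_, fun q hq => ?_⟩
      · have h1 := hlater q.1 q.2 N (max N N' : ℕ) hq (by exact_mod_cast le_max_left N N')
        have h2 : (N : ℝ) ≤ (max N N' : ℕ) := by exact_mod_cast le_max_left N N'
        change R < L (θ q.1 (max N N' : ℕ) q.2)
        rw [h1]
        have h3 : R < L (θ q.1 N q.2) := hq
        linarith
      · have h1 := hlater q.1 q.2 N' (max N N' : ℕ) hq (by exact_mod_cast le_max_right N N')
        have h2 : (N' : ℝ) ≤ (max N N' : ℕ) := by exact_mod_cast le_max_right N N'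
        change R < L (θ q.1 (max N N' : ℕ) q.2)
        rw [h1]
        have h3 : R < L (θ q.1 N' q.2) := hq
        linarith)
  have hN : ∀ t p, ‖p‖ ≤ R₁ → R < L (θ t N₀ p) := fun t p hp =>
    hN₀ (show (t, p) ∈ _ from ⟨mem_univ _, mem_closedBall_zero_iff.2 hp⟩)
  have hspeed : ∀ t p s, 0 ≤ s → L p - C * s ≤ L (θ t s p) := by
    intro t p s hs
    have h1 := (convex_Icc 0 s).norm_image_sub_le_of_norm_hasDerivWithin_le (C := C)
      (f := fun u => θ t u p) (fun u _ => (hder t p u).hasDerivWithinAt)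
      (fun u _ => hCX t _) (left_mem_Icc.2 hs) (right_mem_Icc.2 hs)
    beta_reduce at h1
    rw [h0, Real.norm_eq_abs, sub_zero, abs_of_nonneg hs] at h1
    have h2 := (neg_abs_le _).trans' (neg_le_neg (hL (θ t s p - p)))
    rw [map_sub] at h2
    linarith
  have hC1 : 1 ≤ C := le_max_right _ _
  set S : ℝ := (N₀ : ℝ) + C * N₀ + 1 with hS
  have hN0 : (0 : ℝ) ≤ N₀ := N₀.cast_nonneg
  have hS0 : 0 < S := by positivity
  -- positivity
  have hpos : ∀ t p, L p < L (θ t S p) := by
    intro t p
    by_cases hp : R < L p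
    · rw [habove t p hp S hS0.le, hLadd]
      linarith
    rw [not_lt] at hp
    by_cases hline : ∀ u ∈ Icc 0 S, R < ‖p + u • v‖
    · rw [flow_of_line h0 hder hLip hstd hS0.le hline, hLadd]
      linarith
    push Not at hline
    obtain ⟨u₀, hu₀, hu₀R⟩ := hline
    set B : Set ℝ := Icc 0 S ∩ {u | ‖p + u • v‖ ≤ R₁} with hB
    have hBc : IsCompact B := isCompact_Icc.inter_right
      (isClosed_le (continuous_const.add (continuous_id.smul continuous_const)).norm
        continuous_const)
    have hBne : B.Nonempty := ⟨u₀, hu₀, by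
      change ‖p + u₀ • v‖ ≤ R₁
      linarith⟩
    have hs₁ := hBc.sInf_mem hBne
    set s₁ := sInf B with hs₁d
    have hbefore : ∀ u, 0 ≤ u → u < s₁ → R₁ < ‖p + u • v‖ := by
      intro u hu hus
      by_contra h
      have h1 : u ∈ B := ⟨⟨hu, hus.le.trans hs₁.1.2⟩, not_lt.1 h⟩
      exact absurd (csInf_le hBc.bddBelow h1) (not_le.2 hus)
    have hreach : θ t s₁ p = p + s₁ • v := by
      rcases hs₁.1.1.lt_or_eq with hpos | hzero
      · apply flow_of_line h0 hder hLip hstd hpos.le
        intro u hu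
        rcases hu.2.lt_or_eq with h | h
        · linarith [hbefore u hu.1 h]
        · rw [h]
          have h1 := hbefore (max 0 (s₁ - 1 / 2)) (le_max_left _ _) (max_lt hpos (by linarith))
          have h2 : ‖p + (max 0 (s₁ - 1 / 2)) • v‖ ≤ ‖p + s₁ • v‖ + 1 / 2 := by
            have h3 : p + (max 0 (s₁ - 1 / 2)) • v = (p + s₁ • v) -
                (s₁ - max 0 (s₁ - 1 / 2)) • v := by
              rw [sub_smul]
              abel
            rw [h3]
            refine (norm_sub_le _ _).trans ?_
            rw [norm_smul, hv, mul_one, Real.norm_eq_abs]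
            have h4 : |s₁ - max 0 (s₁ - 1 / 2)| ≤ 1 / 2 := by
              rw [abs_le]
              constructor
              · rcases max_cases 0 (s₁ - 1 / 2) with h | h <;> linarith
              · linarith [le_max_right 0 (s₁ - 1 / 2)]
            linarith
          linarith
      · rw [← hzero, h0, zero_smul, add_zero]
    have hq : ‖p + s₁ • v‖ ≤ R₁ := hs₁.2
    have hS' : θ t S p = θ t (S - s₁) (p + s₁ • v) := by
      rw [← hreach, ← hadd, sub_add_cancel]
    have hLq : L (p + s₁ • v) = L p + s₁ := hLadd p s₁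
    rw [hS']
    by_cases hcase : (N₀ : ℝ) ≤ S - s₁
    · have h1 := hN t _ hq
      have h2 := hlater t _ N₀ (S - s₁) h1 hcase
      rw [h2]
      linarith
    · rw [not_le] at hcase
      have h1 := hspeed t (p + s₁ • v) (S - s₁) (by linarith [hs₁.1.2])
      have h2 : C * (S - s₁) ≤ C * N₀ := by
        apply mul_le_mul_of_nonneg_left hcase.le
        linarith
      linarith
  -- the averaged function
  have hIS : -S ≤ S := by linarith
  set μ : Measure ℝ := volume.restrict (Icc 0 S) with hμ
  have hμf : IsFiniteMeasure μ := ⟨by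
    rw [hμ, Measure.restrict_apply_univ]
    exact isCompact_Icc.measure_lt_top⟩
  set F : T × ℝ → E → ℝ := fun q x => L (θ q.1 (projIcc (-S) S hIS q.2) x) with hF
  have hFCF : CF F := ((hCF S).base (h := fun q : T × ℝ => (q.1, projIcc (-S) S hIS q.2))
    (continuous_fst.prodMk (continuous_projIcc.comp continuous_snd))).clm L
  set g : T → E → ℝ := fun t p => S⁻¹ * (∫ s in Icc 0 S, F (t, s) p ∂μ) - S / 2 with hg
  have hgCF : CF g := ((CF.param continuous_const).smul
    (CF.setIntegral (isCompact_Icc (a := (0 : ℝ)) (b := S)) μ hFCF)).sub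
      (CF.const contDiff_const)
  have hgint : ∀ t p, g t p = S⁻¹ * (∫ s in (0 : ℝ)..S, L (θ t s p)) - S / 2 := by
    intro t p
    simp only [hg]
    congr 2
    rw [hμ, Measure.restrict_restrict measurableSet_Icc, inter_self,
      intervalIntegral.integral_of_le hS0.le, ← integral_Icc_eq_integral_Ioc]
    apply setIntegral_congr_fun measurableSet_Icc
    intro s hs
    simp only [hF]
    rw [projIcc_of_mem hIS ⟨by linarith [hs.1], hs.2⟩]
  refine ⟨R + S, g, by positivity, hgCF, ?_, ?_⟩
  · intro t p hp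
    rw [hgint]
    have h1 : ∀ s ∈ uIcc (0 : ℝ) S, L (θ t s p) = L p + s := by
      intro s hs
      rw [uIcc_of_le hS0.le] at hs
      rw [flow_of_line h0 hder hLip hstd hs.1, hLadd]
      intro u hu
      have h2 : ‖p‖ ≤ ‖p + u • v‖ + u := by
        calc ‖p‖ = ‖(p + u • v) - u • v‖ := by rw [add_sub_cancel_right]
          _ ≤ ‖p + u • v‖ + ‖u • v‖ := norm_sub_le _ _
          _ = ‖p + u • v‖ + u := by
              rw [norm_smul, hv, mul_one, Real.norm_eq_abs, abs_of_nonneg hu.1]
      linarith [hu.2, hs.2]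
    rw [intervalIntegral.integral_congr h1, intervalIntegral.integral_add
      (by simp) (by simp), intervalIntegral.integral_const, integral_id]
    simp only [sub_zero, smul_eq_mul]
    field_simp
    ring
  · intro t p
    have hc : Continuous (fun s => L (θ t s p)) := L.continuous.comp (hθc t p)
    -- the function along the orbit
    have e1 : ∀ h, g t (θ t h p) = S⁻¹ * ((∫ s in (0 : ℝ)..(S + h), L (θ t s p)) -
        ∫ s in (0 : ℝ)..h, L (θ t s p)) - S / 2 := by
      intro h
      rw [hgint]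
      congr 2
      have h1 : (fun s => L (θ t s (θ t h p))) = fun s => L (θ t (s + h) p) := by
        funext s
        rw [hadd]
      rw [h1, intervalIntegral.integral_comp_add_right (fun s => L (θ t s p)), zero_add,
        intervalIntegral.integral_interval_sub_left (hc.intervalIntegrable _ _)
          (hc.intervalIntegrable _ _)]
    have d1 : HasDerivAt (fun h => g t (θ t h p)) (S⁻¹ * (L (θ t S p) - L p)) 0 := by
      have h1 : HasDerivAt (fun a => ∫ s in (0 : ℝ)..a, L (θ t s p)) (L (θ t (S + 0) p)) (S + 0) :=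
        (hc.integral_hasStrictDerivAt 0 (S + 0)).hasDerivAt
      have h2 : HasDerivAt (fun h => ∫ s in (0 : ℝ)..(S + h), L (θ t s p))
          (L (θ t (S + 0) p)) 0 := by
        have h3 : HasDerivAt (fun h : ℝ => S + h) 1 0 := (hasDerivAt_id (0 : ℝ)).const_add S
        have h4 := h1.comp (0 : ℝ) h3
        rw [mul_one] at h4
        exact h4
      have h3 : HasDerivAt (fun a => ∫ s in (0 : ℝ)..a, L (θ t s p)) (L (θ t 0 p)) 0 :=
        (hc.integral_hasStrictDerivAt 0 0).hasDerivAt
      have h4 := ((h2.sub h3).const_mul S⁻¹).sub_const (S / 2)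
      rw [add_zero, h0] at h4
      have e2 : (fun h => g t (θ t h p)) = fun h => S⁻¹ * ((∫ s in (0 : ℝ)..(S + h),
        L (θ t s p)) - ∫ s in (0 : ℝ)..h, L (θ t s p)) - S / 2 := funext e1
      rw [e2]
      exact h4
    have d2 : HasDerivAt (fun h => g t (θ t h p)) (fderiv ℝ (g t) p (X t p)) 0 := by
      have h1 := hder t p 0
      rw [h0] at h1
      have h2 : HasFDerivAt (g t) (fderiv ℝ (g t) p) (θ t 0 p) := by
        rw [h0]
        exact (hgCF.differentiable t p).hasFDerivAt
      exact h2.comp_hasDerivAt (0 : ℝ) h1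
    rw [d2.unique d1]
    have h1 := hpos t p
    have h2 : 0 < L (θ t S p) - L p := by linarith
    positivity

end Pool.Agent.Helper42
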