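import Mathlib
import Pool.Agent.Helper42.NT.Top
import Pool.Agent.Helper42.Susp.Sigma

set_option maxSynthPendingDepth 3

open scoped ContDiff Distributions Topology unitInterval
open Set Function TopologicalSpace Filter Topology

namespace Pool.Agent.Helper42

open Pool.Agent.Helper17 Pool.Agent.H50.Susp

variable {n k : ℕ}

lemma hamField_eq {N : ℕ} (f : Phase N → ℝ) (p : Phase N) : hamField f p = hamV f p := by
  ext i
  rcases i with j | j
  · rw [hamV_inl]
    rfl
  · rw [hamV_inr]
    rfl

/-- The first function of a positive pair is non-trapping. -/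
lemma nontrapping_of_posPair {T : Type} [TopologicalSpace T] {R : ℝ}
    {F G : T → Phase (n + 1) → ℝ} (h : PosPair (0 : Fin (n + 1)) R F G) (t : T)
    (c : ℝ → Phase (n + 1)) (hc : IsHamOrbit (F t) c) : ¬ Bornology.IsBounded (range c) := by
  intro hb
  obtain ⟨R', hR'⟩ := hb.subset_closedBall (0 : Phase (n + 1))
  have hcR : ∀ s, c s ∈ Metric.closedBall (0 : Phase (n + 1)) R' := fun s =>
    hR' (mem_range_self s)
  set D : Phase (n + 1) → ℝ := fun p => fderiv ℝ (G t) p (hamField (F t) p) with hD
  have hDpos : ∀ p, 0 < D p := by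
    intro p
    simp only [hD]
    rw [hamField_eq]
    exact h.pos t p
  have hDc : Continuous D := by
    have h1 : Continuous (fun p => fderiv ℝ (G t) p) :=
      (h.cg.contDiff t).continuous_fderiv (by simp)
    have h2 : Continuous (fun p => hamField (F t) p) := by
      have h3 : Continuous (fun p => fderiv ℝ (F t) p) :=
        (h.cf.contDiff t).continuous_fderiv (by simp)
      unfold hamField
      apply (PiLp.continuous_toLp 2 _).comp
      apply continuous_pi
      rintro (j | j)
      · exact (h3.clm_apply continuous_const).neg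
      · exact h3.clm_apply continuous_const
    exact h1.clm_apply h2
  have hne : (Metric.closedBall (0 : Phase (n + 1)) R').Nonempty := ⟨c 0, hcR 0⟩
  obtain ⟨p₀, hp₀, hmin⟩ := (isCompact_closedBall (0 : Phase (n + 1)) R').exists_isMinOn hne
    hDc.continuousOn
  obtain ⟨p₁, hp₁, hmax⟩ := (isCompact_closedBall (0 : Phase (n + 1)) R').exists_isMaxOn hne
    (f := fun p => |G t p|) (h.cg.contDiff t).continuous.abs.continuousOn
  set m := D p₀ with hm
  have hm0 : 0 < m := hDpos p₀
  have hder : ∀ s, HasDerivAt (fun s => G t (c s)) (D (c s)) s := fun s =>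
    (((h.cg.contDiff t).differentiable (by simp)) (c s)).hasFDerivAt.comp_hasDerivAt s (hc s)
  have hmono : ∀ s, 0 ≤ s → G t (c 0) + m * s ≤ G t (c s) := by
    intro s hs
    have h1 : MonotoneOn (fun s => G t (c s) - m * s) (Icc 0 s) := by
      apply monotoneOn_of_deriv_nonneg (convex_Icc 0 s)
      · exact (fun x _ => ((hder x).sub ((hasDerivAt_id x).const_mul m)).continuousAt.continuousWithinAt)
      · exact (fun x _ => ((hder x).sub
          ((hasDerivAt_id x).const_mul m)).differentiableAt.differentiableWithinAt)
      · intro x _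
        have h2 : HasDerivAt (fun s => G t (c s) - m * s) (D (c x) - m * 1) x :=
          (hder x).sub ((hasDerivAt_id x).const_mul m)
        rw [h2.deriv, mul_one, sub_nonneg]
        exact hmin (hcR x)
    have h2 := h1 (left_mem_Icc.2 hs) (right_mem_Icc.2 hs) hs
    simp only [mul_zero, sub_zero] at h2
    linarith
  set M := |G t p₁| with hM
  have hbd : ∀ s, |G t (c s)| ≤ M := fun s => hmax (hcR s)
  have h0 : 0 ≤ M := abs_nonneg _
  have h1 := hmono ((2 * M + 1) / m) (by positivity)
  have h2 : m * ((2 * M + 1) / m) = 2 * M + 1 := by field_simp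
  have h3 := (abs_le.1 (hbd ((2 * M + 1) / m))).2
  have h4 := (abs_le.1 (hbd 0)).1
  linarith

/-- The projection of the space of pairs to the space of non-trapping Hamiltonians. -/
def pr (u : PairSp n) : NonTrap n :=
  ⟨fun p => (u.1 p).1, contDiff_fst.comp u.2.1, by
    obtain ⟨K, hK, h⟩ := u.2.2.1
    exact ⟨K, hK, fun p hp => by
      beta_reduce
      rw [h p hp]
      rfl⟩, fun c hc => by
    obtain ⟨R, hR, hP⟩ := posPair_of_continuous (V := fun _ : Unit => u) continuous_const
    exact nontrapping_of_posPair hP () c hc⟩

lemma pr_apply (u : PairSp n) (p : Phase (n + 1)) : (pr u).1 p = (u.1 p).1 := rfl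

lemma pr_std : pr (PairSp.std : PairSp n) = NonTrap.std := rfl

/-- The tautological family over the stages of the direct limit. -/
lemma CF_pairSupp (K : Compacts (Phase (n + 1))) :
    CF (fun (t : PairSupp n K) x => t.1.1 x) := by
  have h1 : CF (fun (t : PairSupp n K) x => t.1.1 x - stdPair x) := by
    intro k
    apply CFk.of_iteratedFDeriv
    · intro t
      exact t.1.2.1.sub contDiff_stdPair
    · intro i
      have h2 : Continuous (fun t : PairSupp n K => ContDiffMapSupportedIn.structureMapCLM ℝ ⊤ i
          (PairSupp.disp K t)) :=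
        (ContDiffMapSupportedIn.structureMapCLM ℝ ⊤ i).continuous.comp
          (PairSupp.isInducing_disp K).continuous
      have h3 : ∀ q : PairSupp n K × Phase (n + 1), iteratedFDeriv ℝ i
          (fun x => q.1.1.1 x - stdPair x) q.2 =
          (ContDiffMapSupportedIn.structureMapCLM ℝ ⊤ i (PairSupp.disp K q.1)) q.2 := by
        intro q
        rw [ContDiffMapSupportedIn.structureMapCLM_top_apply]
        rfl
      simp_rw [h3]
      exact Continuous.eval (h2.comp continuous_fst) continuous_snd
  have h2 := h1.add (CF.const (T := PairSupp n K) (contDiff_stdPair (n := n)))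
  convert h2 using 3 with t x
  simp

/-- The projection is continuous. -/
lemma continuous_pr : Continuous (pr : PairSp n → NonTrap n) := by
  rw [continuous_iSup_dom]
  intro K
  rw [continuous_coinduced_dom]
  apply continuous_nt_of_CF (F := fun (t : PairSupp n K) x => (t.1.1 x).1) ?_ K ?_
    (fun t x => rfl)
  · exact (CF_pairSupp K).clm (ContinuousLinearMap.fst ℝ ℝ ℝ)
  · intro t x hx
    rw [t.2 x hx]
    rfl

/-- A homotopy of pairs between families with homotopic first functions. -/
lemma homotopicRel_const_of_left {T : Type} [TopologicalSpace T] [CompactSpace T] {T₀ : Set T}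
    {u v : C(T, PairSp n)} (h : ∀ t, pr (u t) = pr (v t)) (hT : ∀ t ∈ T₀, u t = v t) :
    u.HomotopicRel v T₀ := by
  obtain ⟨R, hR, hP⟩ := posPair_of_continuous u.continuous
  obtain ⟨R', hR', hP'⟩ := posPair_of_continuous v.continuous
  have e : (fun t p => ((v t).1 p).1) = fun t p => ((u t).1 p).1 := by
    funext t p
    exact (congrArg (fun f : NonTrap n => f.1 p) (h t)).symm
  apply homotopicRel_of_pairHomotopic
  have h1 := hP'.mono (le_max_right R R')
  rw [e] at h1 ⊢
  exact pairHomotopic_of_left (hR.trans (le_max_left R R')) (hP.mono (le_max_left R R')) h1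
    (fun t ht p => by
      rw [hT t ht])

end Pool.Agent.Helper42
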