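import Mathlib
import Pool.Agent.Helper42.NT.Pair
import Pool.Agent.Helper42.NT.Lyap

set_option maxSynthPendingDepth 3

open scoped ContDiff Distributions Topology unitInterval
open Set Function TopologicalSpace Filter Topology

namespace Pool.Agent.Helper42

open Pool.Agent.Helper17 Pool.Agent.H50.Susp

variable {n : ℕ}

/-- A compact family of non-trapping Hamiltonians is the first part of a family of positive
pairs. -/
theorem exists_posPair_of_nontrapping {T : Type} [TopologicalSpace T] [CompactSpace T]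
    {f : T → Phase (n + 1) → ℝ} (hf : CF f) {R : ℝ} (hR : 0 ≤ R)
    (hstd : ∀ t p, R < ‖p‖ → f t p = p (Sum.inl 0))
    (hnt : ∀ t (c : ℝ → Phase (n + 1)), (∀ s, HasDerivAt c (hamV (f t) (c s)) s) →
      ¬ Bornology.IsBounded (range c)) :
    ∃ (R' : ℝ) (g : T → Phase (n + 1) → ℝ), 0 ≤ R' ∧ PosPair (0 : Fin (n + 1)) R' f g := by
  obtain ⟨R', g, hR', hg, hgstd, hgpos⟩ := exists_lyapunov (X := fun t p => hamV (f t) p)
    (CF_hamV hf) hR (v := eY 0) (norm_eY 0) (L := coordL (Sum.inr 0))
    (fun p => by
      rw [coordL_apply]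
      exact abs_coord_le p _) (by rw [coordL_apply]; exact eY_inr 0)
    (fun t p hp => hamV_of_std (hstd t) hp) hnt
  refine ⟨max R R', g, hR.trans (le_max_left _ _), hf, hg, fun t p hp => hstd t p
    ((le_max_left _ _).trans_lt hp), fun t p hp => ?_, hgpos⟩
  rw [hgstd t p ((le_max_right _ _).trans_lt hp), coordL_apply]

end Pool.Agent.Helper42
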