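import Mathlib
import Pool.Agent.Helper42.NT.Exist
import Pool.Agent.Helper42.Susp.LesB

set_option maxSynthPendingDepth 3

open scoped ContDiff Distributions Topology unitInterval
open Set Function TopologicalSpace Filter Topology

namespace Pool.Agent.Helper42

open Pool.Agent.Helper17 Pool.Agent.H50.Susp

variable {n k : ℕ}

/-- Compact families of non-trapping Hamiltonians lift to pairs. -/
lemma exists_lift_pair {T : Type} [TopologicalSpace T] [CompactSpace T] {V : T → NonTrap n}
    (hV : Continuous V) : ∃ u : C(T, PairSp n), (∀ t, pr (u t) = V t) ∧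
      ∀ t, V t = NonTrap.std → u t = PairSp.std := by
  obtain ⟨hCF, K, hK⟩ := CF_of_continuous_nt hV
  obtain ⟨R₀, hR₀⟩ := K.isCompact.isBounded.subset_closedBall (0 : Phase (n + 1))
  have hKR : ∀ t, ∀ p : Phase (n + 1), |R₀| < ‖p‖ → (V t).1 p = p (Sum.inl 0) := by
    intro t p hp
    have h1 : p ∉ K := by
      intro h
      have h1 := hR₀ h
      rw [mem_closedBall_zero_iff] at h1
      linarith [le_abs_self R₀]
    exact hK t p h1
  obtain ⟨R, g, hR, hP⟩ := exists_posPair_of_nontrapping hCF (abs_nonneg R₀) hKR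
    (fun t c hc => (V t).2.2.2 c (fun s => by
      rw [hamField_eq]
      exact hc s))
  obtain ⟨G, hG, hG1⟩ := exists_std_of_pos hR hP
  refine ⟨⟨pairOf hG, continuous_pairOf hG⟩, fun t => rfl, fun t ht => ?_⟩
  apply Subtype.ext
  funext p
  have h1 : ∀ p, (V t).1 p = p (Sum.inl 0) := by
    intro p
    rw [ht]
    rfl
  exact Prod.ext (h1 p) (hG1 t h1 p)

/-- The map induced by the projection on homotopy groups. -/
noncomputable def prStar (k n : ℕ) : HomotopyGroup (Fin k) (PairSp n) PairSp.std →
    HomotopyGroup (Fin k) (NonTrap n) NonTrap.std :=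
  Quotient.map (fun γ => ⟨(⟨pr, continuous_pr⟩ : C(PairSp n, NonTrap n)).comp γ.1,
    fun y hy => by
      change pr (γ.1 y) = NonTrap.std
      rw [γ.2 y hy, pr_std]⟩)
    (fun γ γ' h => by
      obtain ⟨H⟩ := h
      exact ⟨{ toFun := fun q => pr (H q)
               continuous_toFun := continuous_pr.comp H.continuous
               map_zero_left := fun q => by rw [H.apply_zero]; rfl
               map_one_left := fun q => by rw [H.apply_one]; rfl
               prop' := fun s q hq => by
                change pr (H (s, q)) = pr (γ.1 q)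
                rw [H.eq_fst s hq] }⟩)

lemma prStar_hmk (γ : GenLoop (Fin k) (PairSp n) PairSp.std)
    (γ' : GenLoop (Fin k) (NonTrap n) NonTrap.std) (h : ∀ t, γ'.1 t = pr (γ.1 t)) :
    prStar k n (hmk γ) = hmk γ' := by
  have h1 : γ' = ⟨(⟨pr, continuous_pr⟩ : C(PairSp n, NonTrap n)).comp γ.1,
    fun y hy => by
      change pr (γ.1 y) = NonTrap.std
      rw [γ.2 y hy, pr_std]⟩ := by
    apply Subtype.ext
    apply ContinuousMap.ext
    exact h
  rw [h1]
  rfl

/-- The projection is a weak homotopy equivalence. -/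
theorem prStar_bijective (k n : ℕ) : Bijective (prStar k n) := by
  constructor
  · intro a b hab
    obtain ⟨u, rfl⟩ := hmk_surj a
    obtain ⟨v, rfl⟩ := hmk_surj b
    obtain ⟨H⟩ := (Quotient.exact hab : ContinuousMap.HomotopicRel _ _ _)
    obtain ⟨W, hW1, hW2⟩ := exists_lift_pair (V := fun q : unitInterval × (Fin k → unitInterval) =>
      H q) H.continuous
    have hbd : ∀ s, ∀ t ∈ Cube.boundary (Fin k), W (s, t) = PairSp.std := by
      intro s t ht
      apply hW2
      change H (s, t) = NonTrap.std
      rw [H.eq_fst s ht]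
      change pr (u.1 t) = NonTrap.std
      rw [u.2 t ht, pr_std]
    have c0 : Continuous (fun t : Fin k → unitInterval => ((0 : unitInterval), t)) :=
      continuous_const.prodMk continuous_id
    have c1 : Continuous (fun t : Fin k → unitInterval => ((1 : unitInterval), t)) :=
      continuous_const.prodMk continuous_id
    have s1 : u.1.HomotopicRel (W.comp ⟨_, c0⟩) (Cube.boundary (Fin k)) := by
      apply homotopicRel_const_of_left
      · intro t
        change pr (u.1 t) = pr (W (0, t))
        rw [hW1, H.apply_zero]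
        rfl
      · intro t ht
        change u.1 t = W (0, t)
        rw [hbd 0 t ht, u.2 t ht]
    have s2 : (W.comp ⟨_, c0⟩).HomotopicRel (W.comp ⟨_, c1⟩) (Cube.boundary (Fin k)) :=
      ⟨{ toFun := fun q => W q
         continuous_toFun := W.continuous
         map_zero_left := fun t => rfl
         map_one_left := fun t => rfl
         prop' := fun s t ht => by
          change W (s, t) = W (0, t)
          rw [hbd s t ht, hbd 0 t ht] }⟩
    have s3 : v.1.HomotopicRel (W.comp ⟨_, c1⟩) (Cube.boundary (Fin k)) := by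
      apply homotopicRel_const_of_left
      · intro t
        change pr (v.1 t) = pr (W (1, t))
        rw [hW1, H.apply_one]
        rfl
      · intro t ht
        change v.1 t = W (1, t)
        rw [hbd 1 t ht, v.2 t ht]
    exact Quotient.sound ((s1.trans s2).trans s3.symm)
  · intro b
    obtain ⟨γ, rfl⟩ := hmk_surj b
    obtain ⟨u, hu1, hu2⟩ := exists_lift_pair (V := fun t : Fin k → unitInterval => γ.1 t)
      γ.1.continuous
    refine ⟨hmk ⟨u, fun t ht => hu2 t (γ.2 t ht)⟩, ?_⟩
    exact prStar_hmk _ _ (fun t => (hu1 t).symm)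

/-- The projection induces homomorphisms. -/
theorem prStar_mul (k n : ℕ) (a b : HomotopyGroup (Fin (k + 1)) (PairSp n) PairSp.std) :
    prStar (k + 1) n (a * b) = prStar (k + 1) n a * prStar (k + 1) n b := by
  obtain ⟨g, rfl⟩ := hmk_surj a
  obtain ⟨g', rfl⟩ := hmk_surj b
  set i : Fin (k + 1) := 0 with hi
  have hb : ∀ γ : GenLoop (Fin (k + 1)) (PairSp n) PairSp.std,
      ∀ y ∈ Cube.boundary (Fin (k + 1)),
      (((⟨pr, continuous_pr⟩ : C(PairSp n, NonTrap n)).comp γ.1) y) = NonTrap.std := by
    intro γ y hy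
    change pr (γ.1 y) = NonTrap.std
    rw [γ.2 y hy, pr_std]
  have e : ∀ γ : GenLoop (Fin (k + 1)) (PairSp n) PairSp.std, prStar (k + 1) n (hmk γ) =
      hmk ⟨(⟨pr, continuous_pr⟩ : C(PairSp n, NonTrap n)).comp γ.1, hb γ⟩ :=
    fun γ => rfl
  rw [hmk_mul _ i, e, e, e, hmk_mul _ i]
  congr 1
  apply Subtype.ext
  apply ContinuousMap.ext
  intro t
  change pr (GenLoop.transAt i g' g t) = _
  rw [transAt_apply]
  change _ = GenLoop.transAt i _ _ t
  rw [transAt_apply]
  split_ifs
  · rfl
  · rfl

end Pool.Agent.Helper42
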