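import Mathlib
import Pool.Agent.Helper42.NT.Star
import Pool.Agent.H50.Susp.Orbit

set_option maxSynthPendingDepth 3

open scoped ContDiff Distributions Topology unitInterval
open Set Function TopologicalSpace Filter Topology

namespace Pool.Agent.Helper42

open Pool.Agent.Helper17 Pool.Agent.H50.Susp

variable {n k : ℕ}

lemma restPt_eq (p : Phase (n + 1)) : restPt p = Pool.Agent.Helper42.wL p := rfl

lemma restPt_eq' (p : Phase (n + 1)) : restPt p = Pool.Agent.H50.Susp.wL n p := by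
  ext i
  rcases i with i | i
  · rfl
  · rfl

/-- The map to the homotopy groups of the space of non-trapping Hamiltonians. -/
noncomputable def jMap (k n : ℕ) (a : HomotopyGroup (Fin k) (SympCt (n + 1)) 1) :
    HomotopyGroup (Fin k) (NonTrap n) NonTrap.std := prStar k n (piPair k n a)

/-- The connecting map. -/
noncomputable def dMap (k n : ℕ) (a : HomotopyGroup (Fin k) (NonTrap n) NonTrap.std) :
    HomotopyGroup (Fin (k + 1)) (SympCt n) 1 :=
  deltaMap k n ((Equiv.ofBijective _ (prStar_bijective k n)).symm a)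

lemma dMap_prStar (a : HomotopyGroup (Fin k) (PairSp n) PairSp.std) :
    dMap k n (prStar k n a) = deltaMap k n a := by
  rw [dMap]
  congr 1
  exact (Equiv.ofBijective _ (prStar_bijective k n)).symm_apply_apply a

lemma jMap_eq (φ : GenLoop (Fin k) (SympCt (n + 1)) 1)
    (f : GenLoop (Fin k) (NonTrap n) NonTrap.std)
    (h : ∀ t p, (f t).1 p = (((φ t : SympCt (n + 1)) : Equiv.Perm (Phase (n + 1))) p) (Sum.inl 0)) :
    jMap k n (hmk φ) = hmk f := by
  rw [jMap]
  exact prStar_hmk (n := n) (k := k)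
    ⟨(⟨pairMap, continuous_pairMap⟩ : C(SympCt (n + 1), PairSp n)).comp φ.1, fun y hy => by
      change pairMap (φ.1 y) = PairSp.std
      rw [φ.2 y hy, pairMap_one]⟩ f (fun t => Subtype.ext (funext fun p => h t p))

lemma dMap_eq (f : GenLoop (Fin k) (NonTrap n) NonTrap.std)
    (e : GenLoop (Fin (k + 1)) (SympCt n) 1) {ρ : ℝ} (hρ : 0 < ρ)
    (hf : ∀ t p, ρ ≤ ‖p‖ → (f t).1 p = p (Sum.inl 0))
    (he : ∀ t (c : ℝ → Phase (n + 1)), IsHamOrbit (f t).1 c → ∀ (a b : ℝ) (τ : unitInterval),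
      (c a) (Sum.inr 0) ≤ -ρ → ρ ≤ (c b) (Sum.inr 0) →
      (c a) (Sum.inl 0) = ρ * (2 * (τ : ℝ) - 1) →
      restPt (c a) = ((e (Fin.snoc (α := fun _ => unitInterval) t τ) : SympCt n) :
        Equiv.Perm (Phase n)) (restPt (c b))) :
    dMap k n (hmk f) = hmk e := by
  obtain ⟨u, hu1, hu2⟩ := exists_lift_pair (V := fun t : Fin k → unitInterval => f.1 t)
    f.1.continuous
  set γ : GenLoop (Fin k) (PairSp n) PairSp.std := ⟨u, fun t ht => hu2 t (f.2 t ht)⟩ with hγ
  have h1 : prStar k n (hmk γ) = hmk f := prStar_hmk _ _ (fun t => (hu1 t).symm)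
  rw [← h1, dMap_prStar]
  have hfun : ∀ t p, ((γ t).1 p).1 = (f t).1 p := fun t p =>
    congrArg (fun F : NonTrap n => F.1 p) (hu1 t)
  have hfun' : (fun (t : Fin k → unitInterval) p => ((γ t).1 p).1) = fun t => (f t).1 := by
    funext t p
    exact hfun t p
  apply deltaMap_cls
  change IsScat (fun t p => ((γ t).1 p).1) (fun q => e (toCube1 q))
  rw [hfun']
  refine ⟨ρ, hρ, hf, fun t c hc a b τ ha hb hx => ?_⟩
  rw [← restPt_eq', ← restPt_eq']
  exact he t c (fun s => by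
    rw [hamField_eq]
    exact hc s) a b τ ha hb hx

lemma sigmaMap_eq' (g : GenLoop (Fin (k + 2)) (SympCt n) 1)
    (φ : GenLoop (Fin k) (SympCt (n + 1)) 1) {R : ℝ} (hR : 0 < R)
    (hpos : ∀ t p, 0 < fderiv ℝ (fun q => (((φ t : SympCt (n + 1)) :
      Equiv.Perm (Phase (n + 1))) q) (Sum.inl 0)) p (EuclideanSpace.single (Sum.inl 0) 1))
    (hsupp : ∀ t (p : Phase (n + 1)), (R ≤ |p (Sum.inl 0)| ∨ R ≤ |p (Sum.inr 0)|) →
      ((φ t : SympCt (n + 1)) : Equiv.Perm (Phase (n + 1))) p = p)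
    (hred : ∀ t (a b : unitInterval) (p : Phase (n + 1)),
      (((φ t : SympCt (n + 1)) : Equiv.Perm (Phase (n + 1))) p) (Sum.inl 0) =
        R * (2 * (a : ℝ) - 1) → p (Sum.inr 0) = R * (2 * (b : ℝ) - 1) →
      restPt (((φ t : SympCt (n + 1)) : Equiv.Perm (Phase (n + 1))) p) =
        ((g (Fin.snoc (α := fun _ => unitInterval) (Fin.snoc (α := fun _ => unitInterval) t b) a) :
          SympCt n) : Equiv.Perm (Phase n)) (restPt p)) :
    sigmaMap k n (hmk g) = hmk φ := by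
  apply sigmaMap_eq
  refine ⟨fun t p => pos_conv' _ _ (hpos t p), R, unloop2 g, ⟨hR, hsupp, ?_⟩,
    ContinuousMap.HomotopicRel.refl _⟩
  intro t z p hx hy
  exact hred t z.1 z.2 p hx hy

lemma jMap_of_isCoord {φ : LoopG k (n + 1)} {f : LoopA k n} (h : IsCoord φ f) :
    jMap k n φ.cls = f.cls :=
  jMap_eq φ f h

lemma dMap_of_isScattering {f : LoopA k n} {e : LoopG (k + 1) n} (h : IsScattering f e) :
    dMap k n f.cls = e.cls := by
  obtain ⟨ρ, hρ, hf, he⟩ := h
  exact dMap_eq f e hρ hf he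

lemma sigmaMap_of_isSuspension {g : LoopG (k + 2) n} {φ : LoopG k (n + 1)}
    (h : IsSuspension g φ) : sigmaMap k n g.cls = φ.cls := by
  obtain ⟨hpos, R, hR, hsupp, hred⟩ := h
  exact sigmaMap_eq' g φ hR hpos hsupp hred

/-- Exactness at the group. -/
theorem range_sigma_iff (k n : ℕ) (a : HomotopyGroup (Fin k) (SympCt (n + 1)) 1) :
    (∃ c, sigmaMap k n c = a) ↔ jMap k n a = hmk GenLoop.const := by
  have h1 : prStar k n (hmk GenLoop.const) = hmk GenLoop.const := prStar_hmk _ _ (fun t => rfl)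
  rw [jMap, ← h1, (prStar_bijective k n).1.eq_iff]
  exact range_sigma_eq k n a

/-- Exactness at the space of non-trapping Hamiltonians. -/
theorem range_j_iff (k n : ℕ) (a : HomotopyGroup (Fin k) (NonTrap n) NonTrap.std) :
    (∃ b, jMap k n b = a) ↔ dMap k n a = hmk GenLoop.const := by
  obtain ⟨a, rfl⟩ := (prStar_bijective k n).2 a
  rw [dMap_prStar]
  have h1 := deltaMap_eq_one_iff (k := k) (n := n) a
  have h2 : (1 : HomotopyGroup (Fin (k + 1)) (SympCt n) 1) = hmk GenLoop.const := rfl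
  rw [← h2, h1]
  constructor
  · rintro ⟨b, hb⟩
    exact ⟨b, (prStar_bijective k n).1 hb⟩
  · rintro ⟨b, rfl⟩
    exact ⟨b, rfl⟩

/-- Exactness at the smaller group. -/
theorem range_d_iff (k n : ℕ) (c : HomotopyGroup (Fin (k + 2)) (SympCt n) 1) :
    (∃ a, dMap (k + 1) n a = c) ↔ sigmaMap k n c = hmk GenLoop.const := by
  rw [← range_delta_eq]
  constructor
  · rintro ⟨a, rfl⟩
    exact ⟨_, rfl⟩
  · rintro ⟨b, rfl⟩
    exact ⟨prStar (k + 1) n b, dMap_prStar b⟩

theorem jMap_mul (k n : ℕ) (a b : HomotopyGroup (Fin (k + 1)) (SympCt (n + 1)) 1) :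
    jMap (k + 1) n (a * b) = jMap (k + 1) n a * jMap (k + 1) n b := by
  rw [jMap, piPair_mul, prStar_mul]
  rfl

theorem dMap_mul (k n : ℕ) (a b : HomotopyGroup (Fin (k + 1)) (NonTrap n) NonTrap.std) :
    dMap (k + 1) n (a * b) = dMap (k + 1) n a * dMap (k + 1) n b := by
  obtain ⟨a, rfl⟩ := (prStar_bijective (k + 1) n).2 a
  obtain ⟨b, rfl⟩ := (prStar_bijective (k + 1) n).2 b
  rw [← prStar_mul, dMap_prStar, dMap_prStar, dMap_prStar, deltaMap_mul]

/-- Refined exactness at the group. -/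
theorem jMap_eq_iff (k n : ℕ) (φ ψ χ : GenLoop (Fin k) (SympCt (n + 1)) 1)
    (h : ∀ t, χ t = φ t * (ψ t)⁻¹) :
    jMap k n (hmk φ) = jMap k n (hmk ψ) ↔ ∃ c, sigmaMap k n c = hmk χ := by
  have h1 : χ = divLoop φ ψ := by
    apply Subtype.ext
    apply ContinuousMap.ext
    exact h
  rw [jMap, jMap, (prStar_bijective k n).1.eq_iff, piPair_eq_iff, h1]
  rfl

lemma jMap_cls_eq_iff {φ ψ χ : LoopG k (n + 1)} (h : ∀ t p, φ.at t p = χ.at t (ψ.at t p)) :
    jMap k n φ.cls = jMap k n ψ.cls ↔ ∃ c, sigmaMap k n c = χ.cls := by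
  apply jMap_eq_iff
  intro t
  apply SympCt.ext'
  intro p
  have h1 := h t ((((ψ.1 t)⁻¹ : SympCt (n + 1)) : Equiv.Perm (Phase (n + 1))) p)
  change ((φ.1 t : SympCt (n + 1)) : Equiv.Perm (Phase (n + 1))) _ =
    ((χ.1 t : SympCt (n + 1)) : Equiv.Perm (Phase (n + 1)))
      (((ψ.1 t : SympCt (n + 1)) : Equiv.Perm (Phase (n + 1))) _) at h1
  rw [SympCt.apply_inv_self] at h1
  exact h1.symm

/-- Lifting a cube of non-trapping Hamiltonians to pairs. -/
lemma exists_lift_loop (f : GenLoop (Fin k) (NonTrap n) NonTrap.std) :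
    ∃ γ : GenLoop (Fin k) (PairSp n) PairSp.std, (∀ t, pr (γ.1 t) = f.1 t) ∧
      prStar k n (hmk γ) = hmk f := by
  obtain ⟨u, hu1, hu2⟩ := exists_lift_pair (V := fun t : Fin k → unitInterval => f.1 t)
    f.1.continuous
  exact ⟨⟨u, fun t ht => hu2 t (f.2 t ht)⟩, hu1, prStar_hmk _ _ (fun t => (hu1 t).symm)⟩

/-- Refined exactness at the space of non-trapping Hamiltonians: two families have the same
scattering class if and only if they differ by the action of a family of symplectomorphisms. -/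
lemma dMap_cls_eq_iff (f f' : LoopA k n) :
    dMap k n f.cls = dMap k n f'.cls ↔ ∃ (φ : LoopG k (n + 1)) (f'' : LoopA k n),
      (∀ t p, f''.at t p = f.at t (φ.at t p)) ∧ f'.cls = f''.cls := by
  obtain ⟨γ, hγ, hγf⟩ := exists_lift_loop f
  obtain ⟨γ', hγ', hγf'⟩ := exists_lift_loop f'
  have e1 : f.cls = prStar k n (hmk γ) := hγf.symm
  have e2 : f'.cls = prStar k n (hmk γ') := hγf'.symm
  rw [e1, e2, dMap_prStar, dMap_prStar]
  have key := deltaMap_eq_iff γ γ'
  constructor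
  · intro h
    obtain ⟨φ, γ'', h1, h2⟩ := key.1 h
    set F : GenLoop (Fin k) (NonTrap n) NonTrap.std :=
      ⟨(⟨pr, continuous_pr⟩ : C(PairSp n, NonTrap n)).comp γ''.1, fun y hy => by
        change pr (γ''.1 y) = NonTrap.std
        rw [γ''.2 y hy, pr_std]⟩ with hF
    refine ⟨φ, F, fun t p => ?_, ?_⟩
    · have h3 : γ''.1 t = (γ.1 t).act (φ.1 t) := h1 t
      change ((γ''.1 t).1 p).1 = (f.1 t).1 (((φ.1 t : SympCt (n + 1)) :
        Equiv.Perm (Phase (n + 1))) p)
      rw [h3, ← hγ t]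
      rfl
    · have h3 : hmk γ' = hmk γ'' := h2
      rw [h3]
      exact prStar_hmk _ _ (fun t => rfl)
  · rintro ⟨φ, f'', h1, h2⟩
    set γ'' : GenLoop (Fin k) (PairSp n) PairSp.std :=
      ⟨⟨fun t => (γ.1 t).act (φ.1 t), continuous_act_family γ.1.continuous φ.1.continuous⟩,
        fun t ht => by
          change (γ.1 t).act (φ.1 t) = PairSp.std
          rw [γ.2 t ht, φ.2 t ht]
          rfl⟩ with hγ''
    have h3 : prStar k n (hmk γ'') = f''.cls := by
      refine prStar_hmk _ _ (fun t => ?_)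
      apply Subtype.ext
      funext p
      have h4 := h1 t p
      change (f''.1 t).1 p = (f.1 t).1 (((φ.1 t : SympCt (n + 1)) :
        Equiv.Perm (Phase (n + 1))) p) at h4
      rw [h4, ← hγ t]
      rfl
    have h4 : hmk γ' = hmk γ'' := by
      apply (prStar_bijective k n).1
      rw [h3, ← h2]
    exact key.2 ⟨φ, γ'', fun t => rfl, h4⟩

end Pool.Agent.Helper42
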